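import Pool.Agent.H12.UCR.Stmts

/-!
# MP_e822af, board `ucr`: row REP
-/

set_option autoImplicit false

open MeasureTheory Filter Topology

namespace Pool.UCR

namespace REP76

/-- the summand -/
noncomputable def e (p L a j l : ℕ) : ℂ :=
  Complex.exp (2 * Real.pi * Complex.I * ((j : ℂ) * a * (p : ℂ) ^ l / ((p : ℂ) ^ L - 1)))

theorem pw {p L : ℕ} (hp : 2 ≤ p) (hL : 1 ≤ L) : (p : ℂ) ^ L - 1 ≠ 0 := by
  intro h
  have h1 : (p : ℂ) ^ L = 1 := by linear_combination h
  have h2 : p ^ L = 1 := by exact_mod_cast h1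
  have h3 : 2 ^ 1 ≤ p ^ L := (Nat.pow_le_pow_left hp 1).trans (Nat.pow_le_pow_right (by omega) hL)
  omega

theorem per {p L : ℕ} (hp : 2 ≤ p) (hL : 1 ≤ L) (a j l : ℕ) : e p L a j (L + l) = e p L a j l := by
  have h := pw hp hL
  have h1 : 2 * Real.pi * Complex.I * ((j : ℂ) * a * (p : ℂ) ^ (L + l) / ((p : ℂ) ^ L - 1)) =
      2 * Real.pi * Complex.I * ((j : ℂ) * a * (p : ℂ) ^ l / ((p : ℂ) ^ L - 1)) +
        ((j * a * p ^ l : ℕ) : ℂ) * (2 * Real.pi * Complex.I) := by
    push_cast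
    rw [pow_add]
    field_simp
    ring
  unfold e
  rw [h1, Complex.exp_add, Complex.exp_nat_mul, Complex.exp_two_pi_mul_I, one_pow, mul_one]

theorem perm {p L : ℕ} (hp : 2 ≤ p) (hL : 1 ≤ L) (a j l r : ℕ) :
    e p L a j (L * r + l) = e p L a j l := by
  induction r with
  | zero => simp
  | succ r ih => rw [show L * (r + 1) + l = L + (L * r + l) by ring, per hp hL, ih]

theorem sm {p L : ℕ} (hp : 2 ≤ p) (hL : 1 ≤ L) (a j r : ℕ) :
    ∑ l ∈ Finset.range (L * r), e p L a j l = r * ∑ l ∈ Finset.range L, e p L a j l := by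
  induction r with
  | zero => simp
  | succ r ih =>
    rw [show L * (r + 1) = L * r + L by ring, Finset.sum_range_add, ih]
    simp only [perm hp hL]
    push_cast
    ring

end REP76

theorem rep_thm : REPS := by
  intro p L r a hp hL hr ha
  refine ⟨a * ∑ i ∈ Finset.range r, (p ^ L) ^ i, ?_, ?_⟩
  · have h1 : 1 ≤ p ^ L := Nat.one_le_pow _ _ (by omega)
    have h2 := geom_sum_mul_add (p ^ L - 1) r
    rw [Nat.sub_add_cancel h1] at h2
    have h3 : a * ∑ i ∈ Finset.range r, (p ^ L) ^ i ≤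
        (p ^ L - 1) * ∑ i ∈ Finset.range r, (p ^ L) ^ i := Nat.mul_le_mul_right _ (by omega)
    rw [pow_mul]
    rw [mul_comm] at h2
    omega
  · intro j
    have hd := REP76.pw hp hL
    have hLr : 1 ≤ L * r := Nat.one_le_iff_ne_zero.2 (by positivity)
    have hd' := REP76.pw hp hLr
    have hg := geom_sum_mul ((p : ℂ) ^ L) r
    rw [← pow_mul] at hg
    have hs : ∀ l : ℕ, REP76.e p (L * r) (a * ∑ i ∈ Finset.range r, (p ^ L) ^ i) j l =
        REP76.e p L a j l := by
      intro l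
      unfold REP76.e
      congr 2
      rw [div_eq_div_iff hd' hd]
      push_cast
      rw [← hg]
      ring
    have hr0 : (r : ℂ) ≠ 0 := by
      have : r ≠ 0 := by omega
      exact_mod_cast this
    have hL0 : (L : ℂ) ≠ 0 := by
      have : L ≠ 0 := by omega
      exact_mod_cast this
    change ((L * r : ℕ) : ℂ)⁻¹ * ∑ l ∈ Finset.range (L * r),
      REP76.e p (L * r) (a * ∑ i ∈ Finset.range r, (p ^ L) ^ i) j l =
        (L : ℂ)⁻¹ * ∑ l ∈ Finset.range L, REP76.e p L a j l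
    simp only [hs]
    rw [REP76.sm hp hL]
    push_cast
    field_simp

end Pool.UCR
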